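import Pool.Agent.N6.W.App
import Pool.Agent.N6.W.Types
import Pool.Agent.R673.MG.Types

/-!
# Finitely presented groups in the wobbling group of the integers, and monsters

The wobbling group `W(ℤ)` is the group of the permutations of `ℤ` of bounded displacement. More
generally a permutation `T` of a set `X` has a (bounded) full group: the permutations which move
every point `x` to `T ^ n x` with `|n|` bounded. Topological full groups of homeomorphisms of
compact spaces are subgroups of such groups. Many finitely generated, infinitely presented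
monsters (Grigorchuk's groups, simple amenable groups, torsion groups) are found there.

We show that a finitely presented group has an infinite image in such a group if and only if it is
virtually indicable, that is, a subgroup of finite index maps onto `ℤ`. For a group which is not
virtually indicable there is a uniform version: all its orbits in sets which lie over the line with
bounded fibres and bounded displacement have bounded size. The finitely presented monsters of
the types (2), (3), (4), (5), (6) are not virtually indicable.

The proof: if an orbit is long enough, then two of its cuts look the same (including the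
connections between the points on the left of the cut), and the piece between the cuts can be
repeated periodically in such a way that some orbit is infinite. As the relators are local, we get
an action of the group on `ℤ` with an infinite orbit which commutes with a translation.
-/

set_option autoImplicit false

namespace Pool.Agent.Results.MP_65b575_al.WobblingGroup

universe u v

/-- A subgroup of finite index has a nonzero homomorphism to `ℤ`. -/
def VirtuallyIndicable (G : Type u) [Group G] : Prop :=
  ∃ H : Subgroup G, H.FiniteIndex ∧ ∃ f : H →* Multiplicative ℤ, f ≠ 1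

/-- `σ` moves every point by a power of `T` with exponent of absolute value at most `m`. -/
def PowersUpTo {X : Type v} (T : Equiv.Perm X) (m : ℕ) (σ : Equiv.Perm X) : Prop :=
  ∀ x, ∃ n : ℤ, |n| ≤ m ∧ σ x = (T ^ n) x

/-- Type (2): `G` has finite exponent. -/
def Type2 (G : Type u) [Group G] : Prop :=
  ∃ n : ℕ, 1 ≤ n ∧ ∀ g : G, g ^ n = 1

/-- Type (3): `G` is not cyclic, and every proper subgroup of `G` is cyclic. -/
def Type3 (G : Type u) [Group G] : Prop :=
  ¬ IsCyclic G ∧ ∀ H : Subgroup G, H ≠ ⊤ → IsCyclic H

/-- Type (4): for some prime `p` every nontrivial proper subgroup is cyclic of order `p`. -/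
def Type4 (G : Type u) [Group G] : Prop :=
  ∃ p : ℕ, p.Prime ∧ ∀ H : Subgroup G, H ≠ ⊥ → H ≠ ⊤ → IsCyclic H ∧ Nat.card H = p

/-- Type (5): `G` is complete. -/
def Type5 (G : Type u) [Group G] : Prop :=
  ∀ g : G, ∀ m : ℕ, 1 ≤ m → ∃ h : G, h ^ m = g

/-- Type (6): `G` has finitely many conjugacy classes. -/
def Type6 (G : Type u) [Group G] : Prop :=
  Finite (ConjClasses G)

theorem type4_torsion {G : Type u} [Group G] (h : Type4 G) :
    ¬ N6.W.VI G ∨ IsCyclic G := by
  obtain ⟨p, hp, h⟩ := h
  by_cases hc : IsCyclic G
  · exact Or.inr hc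
  · refine Or.inl (N6.W.not_vi_of_torsion (fun g => ?_))
    by_cases hg : g = 1
    · exact ⟨1, le_rfl, by simp [hg]⟩
    · have h1 : Subgroup.zpowers g ≠ ⊥ := by
        rw [Ne, Subgroup.zpowers_eq_bot]
        exact hg
      have h2 : Subgroup.zpowers g ≠ ⊤ := by
        intro e
        apply hc
        refine ⟨g, fun x => ?_⟩
        have hx : x ∈ Subgroup.zpowers g := by rw [e]; trivial
        exact hx
      obtain ⟨-, h3⟩ := h _ h1 h2
      rw [Nat.card_zpowers] at h3
      exact ⟨p, hp.one_le, by rw [← h3, pow_orderOf_eq_one]⟩

theorem type4_not_cyclic {G : Type u} [Group G] [Infinite G] (h : Type4 G) : ¬ IsCyclic G := by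
  obtain ⟨p, hp, h⟩ := h
  rintro ⟨c, hc⟩
  have hcf : ¬ IsOfFinOrder c := by
    intro hf
    have h1 : (Set.univ : Set G).Finite := by
      refine hf.finite_zpowers.subset ?_
      intro g _
      obtain ⟨a, ha⟩ := hc g
      exact ⟨a, ha⟩
    exact Set.infinite_univ h1
  have h1 : Subgroup.zpowers (c ^ (2 : ℤ)) ≠ ⊥ := by
    intro e
    rw [Subgroup.zpowers_eq_bot] at e
    have := R673.MG.zpow_inj_of hcf (e.trans (zpow_zero c).symm)
    omega
  have h2 : Subgroup.zpowers (c ^ (2 : ℤ)) ≠ ⊤ := by
    intro e
    have h3 : c ∈ Subgroup.zpowers (c ^ (2 : ℤ)) := by rw [e]; trivial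
    obtain ⟨a, ha⟩ := h3
    have ha' : (c ^ (2 : ℤ)) ^ a = c ^ (1 : ℤ) := by rw [zpow_one]; exact ha
    rw [← zpow_mul] at ha'
    have := R673.MG.zpow_inj_of hcf ha'
    omega
  obtain ⟨-, h3⟩ := h _ h1 h2
  rw [Nat.card_zpowers] at h3
  have h4 : IsOfFinOrder (c ^ (2 : ℤ)) := by
    rw [← orderOf_pos_iff, h3]
    exact hp.pos
  apply hcf
  obtain ⟨n, hn, hn1⟩ := isOfFinOrder_iff_pow_eq_one.1 h4
  rw [← zpow_natCast, ← zpow_mul] at hn1
  have := R673.MG.zpow_inj_of hcf (hn1.trans (zpow_zero c).symm)
  omega

/-- Let `G` be a finitely presented group.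

(1) `G` is virtually indicable if and only if it has a homomorphism with infinite image to the
group of the permutations of `ℤ` of bounded displacement.

(2) If `G` is not virtually indicable, then

(a) for every permutation `T` of a set `X`, every homomorphism from `G` to the group of the
permutations of `X` of the form `x ↦ T ^ n(x) x` with a bounded function `n` has finite image;

(b) for every homeomorphism `T` of a compact space `X`, every homomorphism from `G` to the
topological full group of `T` has finite image;

(c) for every finite generating set `S` and all `m`, `b` there is `N` such that, for every action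
of `G` on a set `Y` with a function `h : Y → ℤ` with fibres of at most `b` points and
`|h (s • y) - h y| ≤ m` for `s ∈ S`, all orbits of `G` in `Y` have at most `N` points.

(3) If `G` is a monster of type (2), (3), (4), (5) or (6), then it is not virtually indicable, so
that (a), (b) and (c) hold. -/
theorem result (G : Type u) [Group G] [Group.IsFinitelyPresented G] :
    (VirtuallyIndicable G ↔ ∃ f : G →* Equiv.Perm ℤ,
      (∀ g, ∃ m : ℕ, ∀ p, |f g p - p| ≤ m) ∧ (Set.range f).Infinite) ∧
    (¬ VirtuallyIndicable G →
      (∀ (X : Type v) (T : Equiv.Perm X) (f : G →* Equiv.Perm X),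
        (∀ g, ∃ m : ℕ, PowersUpTo T m (f g)) → (Set.range f).Finite) ∧
      (∀ (X : Type v) [TopologicalSpace X] [CompactSpace X] (T : X ≃ₜ X) (f : G →* (X ≃ₜ X)),
        (∀ g, ∃ c : X → ℤ, Continuous c ∧ ∀ x, f g x = (T ^ c x) x) → (Set.range f).Finite) ∧
      (∀ S : Set G, S.Finite → Subgroup.closure S = ⊤ → ∀ m b : ℕ, ∃ N : ℕ,
        ∀ (Y : Type v) [MulAction G Y] (h : Y → ℤ),
          (∀ s ∈ S, ∀ y, |h (s • y) - h y| ≤ m) → (∀ n, {y | h y = n}.encard ≤ b) →
          ∀ y : Y, (MulAction.orbit G y).encard ≤ N)) ∧
    (Infinite G → Type2 G ∨ Type3 G ∨ Type4 G ∨ Type5 G ∨ Type6 G →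
      ¬ VirtuallyIndicable G) := by
  refine ⟨⟨fun h => N6.W.exists_of_vi h, ?_⟩, ?_, ?_⟩
  · rintro ⟨f, hf, hinf⟩
    by_contra hG
    apply hinf
    refine N6.W.finite_of_not_vi G hG ℤ (Equiv.addRight 1) f (fun g => ?_)
    obtain ⟨m, hm⟩ := hf g
    exact ⟨m, N6.W.wob_int.2 hm⟩
  · intro hG
    exact ⟨fun X T f h => N6.W.finite_of_not_vi G hG X T f h,
      fun X _ _ T f h => N6.W.finite_of_not_vi_top G hG X T f h,
      fun S _ hS m b => N6.W.gset G hG S hS m b⟩
  · rintro hinf (h | h | h | h | h)
    · obtain ⟨n, hn, h⟩ := h
      exact N6.W.not_vi_of_torsion (fun g => ⟨n, hn, h g⟩)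
    · exact N6.W.not_vi_of_no_fi (R673.MG.cyclic_no_fi h.1 h.2)
    · rcases type4_torsion h with h' | h'
      · exact h'
      · exact absurd h' (type4_not_cyclic h)
    · exact N6.W.not_vi_of_no_fi (R673.MG.complete_no_fi h)
    · exact N6.W.not_vi_of_finite_conj h

end Pool.Agent.Results.MP_65b575_al.WobblingGroup
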